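import Mathlib

set_option autoImplicit false

namespace Pool.Agent.Results.MP_0a44cb_nt.SquareDenominators

open Filter Topology MeasureTheory

/-- `α` is of type `κ`. -/
def IsType (α κ : ℝ) : Prop :=
  ∃ C : ℝ, 0 < C ∧ ∀ (a : ℤ) (q : ℕ), 1 ≤ q → IsCoprime a (q : ℤ) →
    C * (q : ℝ) ^ (-κ) ≤ |α - a / q|

/-- The `(j+1)`-level correlation `R_{j+1}(f, N)` of the sequence `{n² α}`. -/
noncomputable def corr (α : ℝ) (j : ℕ) (f : (Fin j → ℝ) → ℝ) (N : ℕ) : ℝ :=
  (1 / N) * ∑ n ∈ (Fintype.piFinset (fun _ : Fin (j + 1) => Finset.Icc 1 N)).filter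
      (fun n => Function.Injective n),
    ∑' m : Fin j → ℤ, f (fun i => N *
      (Int.fract ((n i.castSucc : ℝ) ^ 2 * α) - Int.fract ((n i.succ : ℝ) ^ 2 * α) + m i))

/-- the exponents -/
def E : ℕ → ℕ
  | 0 => 100
  | (j + 1) => 5 * E j / 2

theorem E_lower (j : ℕ) : 5 * E j ≤ 2 * E (j + 1) + 1 := by
  change 5 * E j ≤ 2 * (5 * E j / 2) + 1
  omega

theorem E_upper (j : ℕ) : 2 * E (j + 1) ≤ 5 * E j := by
  change 2 * (5 * E j / 2) ≤ 5 * E j
  omega

theorem E_ge (j : ℕ) : 100 + j ≤ E j := by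
  induction j with
  | zero => exact le_refl _
  | succ j ih =>
    have := E_lower j
    omega

theorem E_strictMono : StrictMono E := by
  apply strictMono_nat_of_lt_succ
  intro j
  have h1 := E_lower j
  have h2 := E_ge j
  omega

theorem E_add (j i : ℕ) : E j + i ≤ E (j + i) := by
  induction i with
  | zero => exact le_refl _
  | succ i ih =>
    have := E_strictMono (show j + i < j + i + 1 by omega)
    change E j + (i + 1) ≤ E (j + i + 1)
    omega

/-- the terms -/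
noncomputable def term (j : ℕ) : ℝ := (1 / 4 : ℝ) ^ (E j)

theorem term_pos (j : ℕ) : 0 < term j := by unfold term; positivity

theorem term_shift (j i : ℕ) : term (j + i) ≤ term j * (1 / 4 : ℝ) ^ i := by
  unfold term
  rw [← pow_add]
  exact pow_le_pow_of_le_one (by norm_num) (by norm_num) (E_add j i)

theorem summable_shift (j : ℕ) : Summable fun i => term (j + i) := by
  refine Summable.of_nonneg_of_le (fun i => (term_pos _).le) (term_shift j) ?_
  exact (summable_geometric_of_lt_one (by norm_num) (by norm_num)).mul_left _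

theorem summable_term : Summable term := by
  have := summable_shift 0
  simpa using this

/-- the number -/
noncomputable def al : ℝ := ∑' j, term j

/-- the numerator -/
def num (j : ℕ) : ℕ := ∑ i ∈ Finset.range (j + 1), 4 ^ (E j - E i)

theorem num_eq (j : ℕ) : (num j : ℝ) / 4 ^ (E j) = ∑ i ∈ Finset.range (j + 1), term i := by
  unfold num term
  push_cast
  rw [Finset.sum_div]
  apply Finset.sum_congr rfl
  intro i hi
  rw [Finset.mem_range] at hi
  have h : E i ≤ E j := E_strictMono.monotone (by omega)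
  rw [div_eq_iff (by positivity)]
  have e : (4 : ℝ) ^ (E j) = 4 ^ (E j - E i) * 4 ^ (E i) := by
    rw [← pow_add, Nat.sub_add_cancel h]
  rw [e, one_div, inv_pow]
  field_simp

theorem num_odd (j : ℕ) : Odd (num j) := by
  unfold num
  rw [Finset.sum_range_succ, Nat.sub_self, pow_zero]
  apply Even.add_one
  apply Finset.even_sum
  intro i hi
  rw [Finset.mem_range] at hi
  have h : E i < E j := E_strictMono hi
  exact (Nat.even_pow.mpr ⟨by decide, by omega⟩)

/-- the error -/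
theorem al_error (j : ℕ) : al - num j / 4 ^ (E j) = ∑' i, term (j + 1 + i) := by
  rw [num_eq, al, ← Summable.sum_add_tsum_nat_add (j + 1) summable_term, add_sub_cancel_left]
  apply tsum_congr
  intro i
  rw [add_comm]

theorem error_lower (j : ℕ) : term (j + 1) ≤ al - num j / 4 ^ (E j) := by
  rw [al_error]
  have := (summable_shift (j + 1)).le_tsum 0 (fun i _ => (term_pos _).le)
  simpa using this

theorem error_upper (j : ℕ) : al - num j / 4 ^ (E j) ≤ 2 * term (j + 1) := by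
  rw [al_error]
  have h1 : ∑' i, term (j + 1 + i) ≤ ∑' i, term (j + 1) * (1 / 4 : ℝ) ^ i :=
    Summable.tsum_le_tsum (term_shift (j + 1)) (summable_shift (j + 1))
      ((summable_geometric_of_lt_one (by norm_num) (by norm_num)).mul_left _)
  rw [tsum_mul_left, tsum_geometric_of_lt_one (by norm_num) (by norm_num)] at h1
  have := term_pos (j + 1)
  nlinarith

theorem num_coprime (j : ℕ) : Nat.Coprime (num j) (4 ^ (E j)) := by
  apply Nat.Coprime.pow_right
  have h : Nat.Coprime (num j) 2 := (Nat.coprime_two_right).mpr (num_odd j)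
  exact (Nat.Coprime.mul_right h h)

theorem type_al : IsType al (8 / 3) := by
  refine ⟨1 / (2 * 4 ^ 100), by positivity, ?_⟩
  intro a q hq hcop
  have hq0 : (0 : ℝ) < q := by exact_mod_cast hq
  have hq1 : (1 : ℝ) ≤ q := by exact_mod_cast hq
  -- powers
  have hpow1 : (q : ℝ) ^ (-(8 / 3 : ℝ)) ≤ 1 / q := by
    rw [one_div, ← Real.rpow_neg_one]
    exact Real.rpow_le_rpow_of_exponent_le hq1 (by norm_num)
  have hex : ∃ j, 4 * q * 4 ^ (E j) ≤ 4 ^ (E (j + 1)) := by
    refine ⟨q, ?_⟩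
    have h1 := E_lower q
    have h2 := E_ge q
    have h3 : E q + (q + 1) ≤ E (q + 1) := by omega
    calc 4 * q * 4 ^ (E q) ≤ 4 * 4 ^ q * 4 ^ (E q) := by
          gcongr
          exact (Nat.lt_pow_self (by norm_num)).le
      _ = 4 ^ (E q + (q + 1)) := by ring
      _ ≤ 4 ^ (E (q + 1)) := Nat.pow_le_pow_right (by norm_num) h3
  classical
  obtain ⟨j, hj, hmin⟩ : ∃ j, 4 * q * 4 ^ (E j) ≤ 4 ^ (E (j + 1)) ∧
      ∀ i < j, ¬ (4 * q * 4 ^ (E i) ≤ 4 ^ (E (i + 1))) :=
    ⟨Nat.find hex, Nat.find_spec hex, fun i hi => Nat.find_min hex hi⟩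
  set X : ℝ := 4 ^ (E j) with hX
  have hX0 : 0 < X := by positivity
  have hel := error_lower j
  have heu := error_upper j
  by_cases heq : a * 4 ^ (E j) = (num j : ℤ) * q
  · -- the fraction is the approximant
    have hqX : q = 4 ^ (E j) := by
      apply Nat.dvd_antisymm
      · have h1 : (q : ℤ) ∣ a * 4 ^ (E j) := ⟨num j, by rw [heq]; ring⟩
        have h2 : (q : ℤ) ∣ ((4 ^ (E j) : ℕ) : ℤ) := by
          push_cast
          exact (hcop.symm).dvd_of_dvd_mul_left h1
        exact_mod_cast h2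
      · have h1 : ((4 ^ (E j) : ℕ) : ℤ) ∣ (num j : ℤ) * q := ⟨a, by push_cast; rw [← heq]; ring⟩
        have h2 : (4 ^ (E j)) ∣ num j * q := by exact_mod_cast h1
        exact (num_coprime j).symm.dvd_of_dvd_mul_left h2
    have haq : (a : ℝ) / q = num j / X := by
      rw [div_eq_div_iff hq0.ne' hX0.ne', hX]
      exact_mod_cast heq
    rw [haq, abs_of_nonneg (le_trans (term_pos _).le hel)]
    refine le_trans ?_ hel
    have hqr : (q : ℝ) = (4 : ℝ) ^ ((E j : ℕ) : ℝ) := by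
      rw [Real.rpow_natCast]; exact_mod_cast hqX
    have h3 : (q : ℝ) ^ (-(8 / 3 : ℝ)) ≤ term (j + 1) := by
      rw [hqr, ← Real.rpow_mul (by norm_num)]
      have e4 : term (j + 1) = (4 : ℝ) ^ (-((E (j + 1) : ℕ) : ℝ)) := by
        rw [Real.rpow_neg (by norm_num), Real.rpow_natCast]
        unfold term
        rw [one_div, inv_pow]
      rw [e4]
      apply Real.rpow_le_rpow_of_exponent_le (by norm_num)
      have h5 : (2 : ℝ) * E (j + 1) ≤ 5 * E j := by exact_mod_cast E_upper j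
      have h6 : (0 : ℝ) ≤ E j := Nat.cast_nonneg _
      nlinarith
    have h4 : (1 : ℝ) / (2 * 4 ^ 100) ≤ 1 := by norm_num
    calc _ ≤ 1 * (q : ℝ) ^ (-(8 / 3 : ℝ)) := mul_le_mul_of_nonneg_right h4 (by positivity)
      _ ≤ _ := by rw [one_mul]; exact h3
  · -- a different fraction
    have hdiff : 1 / (q * X) ≤ |(num j : ℝ) / X - a / q| := by
      rw [div_sub_div _ _ hX0.ne' hq0.ne', abs_div, abs_of_pos (mul_pos hX0 hq0), mul_comm (q : ℝ) X]
      apply div_le_div_of_nonneg_right _ (by positivity)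
      have hne : (num j : ℤ) * q - 4 ^ (E j) * a ≠ 0 := by
        intro h
        apply heq
        linarith
      have h1 : (1 : ℤ) ≤ |(num j : ℤ) * q - 4 ^ (E j) * a| := Int.one_le_abs hne
      have h2 : (1 : ℝ) ≤ |(num j : ℝ) * q - X * a| := by rw [hX]; exact_mod_cast h1
      exact h2
    have hterm : 2 * term (j + 1) ≤ 1 / (2 * (q * X)) := by
      unfold term
      rw [one_div, inv_pow, ← div_eq_mul_inv, div_le_div_iff₀ (by positivity) (by positivity), one_mul]
      have : (4 : ℝ) * q * 4 ^ (E j) ≤ 4 ^ (E (j + 1)) := by exact_mod_cast hj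
      rw [hX]
      linarith
    have hmain : 1 / (2 * (q * X)) ≤ |al - a / q| := by
      have h1 : al - a / q = (al - num j / X) + (num j / X - a / q) := by ring
      have h2 := abs_sub_abs_le_abs_sub ((num j : ℝ) / X - a / q) (-(al - num j / X))
      rw [abs_neg, sub_neg_eq_add, add_comm ((num j : ℝ) / X - a / q), ← h1] at h2
      have h3 : |al - num j / X| ≤ 1 / (2 * (q * X)) := by
        rw [abs_of_nonneg (le_trans (term_pos _).le hel)]
        exact heu.trans hterm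
      have h4 : 1 / (q * X) = 1 / (2 * (q * X)) + 1 / (2 * (q * X)) := by field_simp; ring
      linarith
    refine le_trans ?_ hmain
    rcases Nat.eq_zero_or_pos j with h0 | hpos
    · have hX' : X = 4 ^ 100 := by rw [hX, h0]; rfl
      rw [hX']
      calc _ ≤ 1 / (2 * 4 ^ 100) * (1 / (q : ℝ)) := mul_le_mul_of_nonneg_left hpow1 (by positivity)
        _ = _ := by field_simp
    · obtain ⟨i, rfl⟩ : ∃ i, j = i + 1 := ⟨j - 1, by omega⟩
      have h1 : (4 : ℝ) ^ (E (i + 1)) < 4 * q * 4 ^ (E i) := by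
        have := hmin i (by omega)
        push Not at this
        exact_mod_cast this
      rw [← hX] at h1
      set Y : ℝ := 4 ^ (E i) with hY
      have hY0 : 0 < Y := by positivity
      have h2 : Y ^ 5 ≤ 4 * X ^ 2 := by
        rw [hY, hX, ← pow_mul, ← pow_mul, ← pow_succ']
        apply pow_le_pow_right₀ (by norm_num)
        have := E_lower i
        omega
      have h3 : X ^ 5 ≤ (4 * q) ^ 5 * (4 * X ^ 2) := by
        calc X ^ 5 ≤ (4 * q * Y) ^ 5 := pow_le_pow_left₀ hX0.le h1.le 5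
          _ = (4 * q) ^ 5 * Y ^ 5 := by ring
          _ ≤ _ := mul_le_mul_of_nonneg_left h2 (by positivity)
      have h4 : X ^ 3 ≤ 4 ^ 6 * (q : ℝ) ^ 5 := by
        have h5 : X ^ 3 * X ^ 2 ≤ (4 ^ 6 * (q : ℝ) ^ 5) * X ^ 2 := by
          calc X ^ 3 * X ^ 2 = X ^ 5 := by ring
            _ ≤ (4 * q) ^ 5 * (4 * X ^ 2) := h3
            _ = _ := by ring
        exact le_of_mul_le_mul_right h5 (by positivity)
      have h6 : X ≤ 16 * (q : ℝ) ^ (5 / 3 : ℝ) := by
        apply le_of_pow_le_pow_left₀ (n := 3) (by norm_num) (by positivity)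
        rw [mul_pow, ← Real.rpow_natCast ((q : ℝ) ^ (5 / 3 : ℝ)) 3, ← Real.rpow_mul hq0.le]
        have : ((5 / 3 : ℝ) * ((3 : ℕ) : ℝ)) = ((5 : ℕ) : ℝ) := by norm_num
        rw [this, Real.rpow_natCast]
        calc X ^ 3 ≤ 4 ^ 6 * (q : ℝ) ^ 5 := h4
          _ = 16 ^ 3 * (q : ℝ) ^ 5 := by norm_num
      have h7 : (q : ℝ) * X ≤ 16 * (q : ℝ) ^ (8 / 3 : ℝ) := by
        have e8 : (q : ℝ) ^ (8 / 3 : ℝ) = q * (q : ℝ) ^ (5 / 3 : ℝ) := by
          rw [show (8 / 3 : ℝ) = 1 + 5 / 3 by norm_num, Real.rpow_add hq0, Real.rpow_one]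
        rw [e8]
        calc (q : ℝ) * X ≤ q * (16 * (q : ℝ) ^ (5 / 3 : ℝ)) := mul_le_mul_of_nonneg_left h6 hq0.le
          _ = _ := by ring
      have hZ : 0 < (q : ℝ) ^ (8 / 3 : ℝ) := by positivity
      rw [Real.rpow_neg hq0.le, ← div_eq_mul_inv, div_le_div_iff₀ hZ (by positivity)]
      have h9 : (1 : ℝ) / (2 * 4 ^ 100) ≤ 1 / 32 := by norm_num
      calc (1 : ℝ) / (2 * 4 ^ 100) * (2 * (q * X)) ≤ 1 / 32 * (2 * (16 * (q : ℝ) ^ (8 / 3 : ℝ))) := by
            apply mul_le_mul h9 _ (by positivity) (by norm_num)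
            exact mul_le_mul_of_nonneg_left h7 (by norm_num)
        _ = 1 * (q : ℝ) ^ (8 / 3 : ℝ) := by ring

theorem IsType.irrational {α κ : ℝ} (h : IsType α κ) : Irrational α := by
  obtain ⟨C, hC, h⟩ := h
  rintro ⟨r, rfl⟩
  have h1 := h r.num r.den r.pos (by
    have := r.reduced
    rw [Int.isCoprime_iff_gcd_eq_one, Int.gcd_eq_natAbs]
    simpa using this)
  have h2 : ((r : ℝ)) - (r.num : ℝ) / (r.den : ℝ) = 0 := by
    rw [sub_eq_zero]
    exact_mod_cast (Rat.num_div_den r).symm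
  rw [h2, abs_zero] at h1
  have : 0 < C * ((r.den : ℕ) : ℝ) ^ (-κ) := by
    have : (0 : ℝ) < r.den := by exact_mod_cast r.pos
    positivity
  linarith

/-- The test function. -/
noncomputable def F (y : Fin 2 → ℝ) : ℝ := ∏ i, max 0 (min 1 (2 - |y i|))

theorem F_continuous : Continuous F := by unfold F; fun_prop

theorem F_nonneg (y : Fin 2 → ℝ) : 0 ≤ F y := Finset.prod_nonneg fun _ _ => le_max_left _ _

theorem F_support {y : Fin 2 → ℝ} (h : F y ≠ 0) (i : Fin 2) : |y i| < 2 := by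
  by_contra hc
  push Not at hc
  apply h
  unfold F
  apply Finset.prod_eq_zero (Finset.mem_univ i)
  apply max_eq_left
  exact (min_le_right _ _).trans (by linarith)

theorem F_compact : HasCompactSupport F := by
  apply HasCompactSupport.intro (isCompact_closedBall (0 : Fin 2 → ℝ) 2)
  intro y hy
  by_contra h
  apply hy
  rw [mem_closedBall_zero_iff, pi_norm_le_iff_of_nonneg (by norm_num)]
  intro i
  exact (F_support h i).le

theorem F_one {y : Fin 2 → ℝ} (h : ∀ i, |y i| ≤ 1) : F y = 1 := by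
  unfold F
  apply Finset.prod_eq_one
  intro i _
  rw [min_eq_left (by linarith [h i]), max_eq_right zero_le_one]

theorem tsum_lower {N : ℕ} (hN : 1 ≤ N) (d : Fin 2 → ℝ) (hd : ∀ i, |d i| < 1)
    (hNd : ∀ i, |(N : ℝ) * d i| ≤ 1) :
    1 ≤ ∑' m : Fin 2 → ℤ, F (fun i => N * (d i + m i)) := by
  have hN' : (1 : ℝ) ≤ N := by exact_mod_cast hN
  have hs : Summable fun m : Fin 2 → ℤ => F (fun i => N * (d i + m i)) := by
    apply summable_of_ne_finset_zero (s := Fintype.piFinset fun _ : Fin 2 => Finset.Icc (-3) 3)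
    intro m hm
    by_contra h
    apply hm
    rw [Fintype.mem_piFinset]
    intro i
    have h1 := F_support h i
    rw [abs_mul, abs_of_nonneg (by linarith : (0 : ℝ) ≤ N)] at h1
    have h2 : |d i + m i| < 2 := by nlinarith [abs_nonneg (d i + m i)]
    have h3 := abs_lt.mp h2
    have h4 := abs_lt.mp (hd i)
    have h5 : (-3 : ℝ) < m i := by linarith
    have h6 : (m i : ℝ) < 3 := by linarith
    rw [Finset.mem_Icc]
    constructor
    · have : (-3 : ℤ) < m i := by exact_mod_cast h5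
      omega
    · have : m i < (3 : ℤ) := by exact_mod_cast h6
      omega
  have h0 : F (fun i => N * (d i + ((0 : Fin 2 → ℤ) i : ℝ))) = 1 := by
    apply F_one
    intro i
    simpa using hNd i
  rw [← h0]
  exact hs.le_tsum 0 (fun m _ => F_nonneg _)

/-- parameters -/
def s (j : ℕ) : ℕ := (2 * E j - 7) / 3

theorem fract_bound (j : ℕ) {n : ℕ} (hn1 : 2 ^ (E j) ∣ n) (hn : n ≤ 3 * 2 ^ (E j) * 2 ^ (s j)) :
    0 ≤ Int.fract ((n : ℝ) ^ 2 * al) ∧
    ((3 * 2 ^ (E j) * 2 ^ (s j) : ℕ) : ℝ) * Int.fract ((n : ℝ) ^ 2 * al) ≤ 1 := by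
  refine ⟨Int.fract_nonneg _, ?_⟩
  set N : ℕ := 3 * 2 ^ (E j) * 2 ^ (s j) with hN
  have hN1 : 1 ≤ N := Nat.succ_le_of_lt (by rw [hN]; positivity)
  have hN1' : (1 : ℝ) ≤ N := by exact_mod_cast hN1
  obtain ⟨m, hm⟩ := hn1
  set δ : ℝ := al - num j / 4 ^ (E j) with hδ
  have hδ0 : 0 ≤ δ := (term_pos _).le.trans (error_lower j)
  have hδ1 : δ ≤ 2 * term (j + 1) := error_upper j
  have hal : al = num j / 4 ^ (E j) + δ := by rw [hδ]; ring
  -- size
  have hcube : 2 * N ^ 3 ≤ 4 ^ (E (j + 1)) := by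
    have h1 : 6 + 3 * E j + 3 * s j ≤ 2 * E (j + 1) := by
      have h2 := E_lower j
      have h3 := E_ge j
      unfold s
      omega
    calc 2 * N ^ 3 = 54 * 2 ^ (3 * E j + 3 * s j) := by rw [hN]; ring
      _ ≤ 64 * 2 ^ (3 * E j + 3 * s j) := Nat.mul_le_mul_right _ (by norm_num)
      _ = 2 ^ (6 + 3 * E j + 3 * s j) := by ring
      _ ≤ 2 ^ (2 * E (j + 1)) := Nat.pow_le_pow_right (by norm_num) h1
      _ = 4 ^ (E (j + 1)) := by rw [pow_mul]; norm_num
  have hcube' : (N : ℝ) ^ 3 * (2 * term (j + 1)) ≤ 1 := by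
    unfold term
    rw [one_div, inv_pow, ← mul_assoc, ← div_eq_mul_inv, div_le_one (by positivity)]
    have : (2 : ℝ) * (N : ℝ) ^ 3 ≤ 4 ^ (E (j + 1)) := by exact_mod_cast hcube
    linarith
  have hnN : (n : ℝ) ≤ N := by exact_mod_cast hn
  have hn0 : (0 : ℝ) ≤ n := Nat.cast_nonneg _
  have hprod : (N : ℝ) * ((n : ℝ) ^ 2 * δ) ≤ 1 := by
    calc (N : ℝ) * ((n : ℝ) ^ 2 * δ) ≤ N * ((N : ℝ) ^ 2 * (2 * term (j + 1))) := by
          apply mul_le_mul_of_nonneg_left _ (by linarith)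
          exact mul_le_mul (pow_le_pow_left₀ hn0 hnN 2) hδ1 hδ0 (by positivity)
      _ = (N : ℝ) ^ 3 * (2 * term (j + 1)) := by ring
      _ ≤ 1 := hcube'
  -- the fractional part
  have hsplit : (n : ℝ) ^ 2 * al = ((m ^ 2 * num j : ℕ) : ℝ) + (n : ℝ) ^ 2 * δ := by
    rw [hal, mul_add]
    congr 1
    rw [hm]
    push_cast
    have : (4 : ℝ) ^ (E j) = (2 ^ (E j)) ^ 2 := by rw [← pow_mul, mul_comm, pow_mul]; norm_num
    rw [this]
    field_simp
  have hsmall : (n : ℝ) ^ 2 * δ ≤ 1 := by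
    have h0 : 0 ≤ (n : ℝ) ^ 2 * δ := by positivity
    nlinarith
  rw [hsplit, Int.fract_natCast_add]
  rcases eq_or_lt_of_le hsmall with h1 | h1
  · rw [h1, Int.fract_one]; simp
  · rw [Int.fract_eq_self.mpr ⟨by positivity, h1⟩]
    exact hprod

theorem corr_lower (j : ℕ) :
    (2 : ℝ) ^ (j / 3) / 3 ≤ corr al 2 F (3 * 2 ^ (E j) * 2 ^ (s j)) := by
  set u : ℕ := 2 ^ (E j) with hu
  set L : ℕ := 2 ^ (s j) with hL
  have hu0 : 0 < u := by rw [hu]; positivity
  have hL0 : 0 < L := by rw [hL]; positivity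
  set N : ℕ := 3 * u * L with hN
  have hN1 : 1 ≤ N := Nat.succ_le_of_lt (by rw [hN]; positivity)
  have hN0 : (0 : ℝ) < N := by exact_mod_cast hN1
  -- the block tuples
  set B : Fin 3 → Finset ℕ := fun i =>
    (Finset.Icc ((i : ℕ) * L + 1) (((i : ℕ) + 1) * L)).image (fun m => u * m) with hB
  set S : Finset (Fin 3 → ℕ) := Fintype.piFinset B with hS
  have hcard : S.card = L ^ 3 := by
    rw [hS, Fintype.card_piFinset]
    have : ∀ i : Fin 3, (B i).card = L := by
      intro i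
      rw [hB]
      simp only
      rw [Finset.card_image_of_injective _ (fun a b h => Nat.eq_of_mul_eq_mul_left hu0 h),
        Nat.card_Icc]
      have : ((i : ℕ) + 1) * L = (i : ℕ) * L + L := by ring
      omega
    simp [this]
  have hmem : ∀ n ∈ S, ∀ i, ∃ m, n i = u * m ∧ (i : ℕ) * L + 1 ≤ m ∧ m ≤ ((i : ℕ) + 1) * L := by
    intro n hn i
    have h1 := Fintype.mem_piFinset.mp hn i
    rw [hB] at h1
    simp only [Finset.mem_image, Finset.mem_Icc] at h1
    obtain ⟨m, hm, hm'⟩ := h1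
    exact ⟨m, hm'.symm, hm⟩
  have hsub : S ⊆ (Fintype.piFinset (fun _ : Fin (2 + 1) => Finset.Icc 1 N)).filter
      (fun n => Function.Injective n) := by
    intro n hn
    rw [Finset.mem_filter]
    constructor
    · rw [Fintype.mem_piFinset]
      intro i
      obtain ⟨m, h1, h2, h3⟩ := hmem n hn i
      rw [Finset.mem_Icc, h1]
      have h4 : m ≤ 3 * L := h3.trans (Nat.mul_le_mul_right _ (by omega))
      constructor
      · exact Nat.succ_le_of_lt (Nat.mul_pos hu0 (by omega))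
      · calc u * m ≤ u * (3 * L) := Nat.mul_le_mul_left _ h4
          _ = N := by rw [hN]; ring
    · intro i k hik
      obtain ⟨m, h1, h2, h3⟩ := hmem n hn i
      obtain ⟨m', h1', h2', h3'⟩ := hmem n hn k
      have hmm : m = m' := Nat.eq_of_mul_eq_mul_left hu0 (by rw [← h1, ← h1', hik])
      subst hmm
      apply Fin.ext
      by_contra hne
      rcases Nat.lt_or_gt_of_ne hne with h | h
      · have : ((i : ℕ) + 1) * L ≤ (k : ℕ) * L := Nat.mul_le_mul_right _ h
        omega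
      · have : ((k : ℕ) + 1) * L ≤ (i : ℕ) * L := Nat.mul_le_mul_right _ h
        omega
  have hterm : ∀ n ∈ S, (1 : ℝ) ≤ ∑' m : Fin 2 → ℤ, F (fun i => N *
      (Int.fract ((n i.castSucc : ℝ) ^ 2 * al) - Int.fract ((n i.succ : ℝ) ^ 2 * al) + m i)) := by
    intro n hn
    have hfr : ∀ i, 0 ≤ Int.fract ((n i : ℝ) ^ 2 * al) ∧
        (N : ℝ) * Int.fract ((n i : ℝ) ^ 2 * al) ≤ 1 := by
      intro i
      obtain ⟨m, h1, h2, h3⟩ := hmem n hn i
      apply fract_bound j ⟨m, h1⟩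
      rw [h1]
      have h4 : m ≤ 3 * L := h3.trans (Nat.mul_le_mul_right _ (by omega))
      calc u * m ≤ u * (3 * L) := Nat.mul_le_mul_left _ h4
        _ = 3 * u * L := by ring
    apply tsum_lower hN1
    · intro i
      rw [abs_lt]
      constructor <;> linarith [Int.fract_nonneg ((n i.castSucc : ℝ) ^ 2 * al),
        Int.fract_lt_one ((n i.castSucc : ℝ) ^ 2 * al), Int.fract_nonneg ((n i.succ : ℝ) ^ 2 * al),
        Int.fract_lt_one ((n i.succ : ℝ) ^ 2 * al)]
    · intro i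
      have h1 := hfr i.castSucc
      have h2 := hfr i.succ
      rw [mul_sub, abs_le]
      have h3 : 0 ≤ (N : ℝ) * Int.fract ((n i.castSucc : ℝ) ^ 2 * al) := mul_nonneg hN0.le h1.1
      have h4 : 0 ≤ (N : ℝ) * Int.fract ((n i.succ : ℝ) ^ 2 * al) := mul_nonneg hN0.le h2.1
      constructor <;> linarith [h1.2, h2.2]
  unfold corr
  have hsum : ((L ^ 3 : ℕ) : ℝ) ≤ ∑ n ∈ (Fintype.piFinset (fun _ : Fin (2 + 1) => Finset.Icc 1 N)).filter
      (fun n => Function.Injective n), ∑' m : Fin 2 → ℤ, F (fun i => N *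
      (Int.fract ((n i.castSucc : ℝ) ^ 2 * al) - Int.fract ((n i.succ : ℝ) ^ 2 * al) + m i)) := by
    calc ((L ^ 3 : ℕ) : ℝ) = ∑ n ∈ S, (1 : ℝ) := by rw [Finset.sum_const, hcard, nsmul_eq_mul, mul_one]
      _ ≤ ∑ n ∈ S, ∑' m : Fin 2 → ℤ, F (fun i => N *
          (Int.fract ((n i.castSucc : ℝ) ^ 2 * al) - Int.fract ((n i.succ : ℝ) ^ 2 * al) + m i)) :=
        Finset.sum_le_sum hterm
      _ ≤ _ := Finset.sum_le_sum_of_subset_of_nonneg hsub fun _ _ _ => tsum_nonneg fun _ => F_nonneg _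
  have hfin : (2 : ℝ) ^ (j / 3) / 3 ≤ (1 / (N : ℝ)) * ((L ^ 3 : ℕ) : ℝ) := by
    have h1 : j / 3 + E j ≤ 2 * s j := by
      have := E_ge j
      unfold s
      omega
    have h2 : (2 : ℝ) ^ (j / 3) * u ≤ (L : ℝ) ^ 2 := by
      rw [hu, hL]
      push_cast
      rw [← pow_add, ← pow_mul, mul_comm (s j) 2]
      exact pow_le_pow_right₀ (by norm_num) h1
    have hL' : (0 : ℝ) < L := by exact_mod_cast hL0
    rw [one_div, inv_mul_eq_div, div_le_div_iff₀ (by norm_num) hN0, hN]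
    push_cast
    nlinarith [mul_le_mul_of_nonneg_right h2 hL'.le]
  exact hfin.trans (mul_le_mul_of_nonneg_left hsum (by positivity))

/-- `α` is of type `8/3 < 3`, but the triple correlation `R_3(f, N)` diverges along a sequence. -/
theorem result : ∃ α κ : ℝ, Irrational α ∧ κ < 3 ∧ IsType α κ ∧
    ∃ f : (Fin 2 → ℝ) → ℝ, Continuous f ∧ HasCompactSupport f ∧
      ¬ ∃ l : ℝ, Tendsto (corr α 2 f) atTop (𝓝 l) := by
  refine ⟨al, 8 / 3, type_al.irrational, by norm_num, type_al, F, F_continuous, F_compact, ?_⟩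
  rintro ⟨l, hl⟩
  have h1 : Tendsto (fun j : ℕ => 3 * 2 ^ (E j) * 2 ^ (s j)) atTop atTop := by
    apply tendsto_atTop_mono (f := fun j : ℕ => j) _ tendsto_id
    intro j
    have h2 : j < 2 ^ (E j) := lt_of_le_of_lt (by have := E_ge j; omega) (Nat.lt_two_pow_self (n := E j))
    have h3 : 1 ≤ 2 ^ (s j) := Nat.one_le_two_pow
    nlinarith
  have h2 := (hl.comp h1).comp (tendsto_id.const_mul_atTop' (show 0 < 3 by norm_num) :
    Tendsto (fun m : ℕ => 3 * m) atTop atTop)
  have h3 : Tendsto (fun m : ℕ => (2 : ℝ) ^ m / 3) atTop atTop :=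
    (tendsto_pow_atTop_atTop_of_one_lt one_lt_two).atTop_div_const (by norm_num)
  have h4 := tendsto_atTop_mono (f := fun m : ℕ => (2 : ℝ) ^ m / 3)
    (g := (corr al 2 F ∘ fun j : ℕ => 3 * 2 ^ (E j) * 2 ^ (s j)) ∘ fun m : ℕ => 3 * m) (by
      intro m
      have := corr_lower (3 * m)
      rw [Nat.mul_div_cancel_left m (by norm_num)] at this
      exact this) h3
  exact not_tendsto_nhds_of_tendsto_atTop h4 l h2

end Pool.Agent.Results.MP_0a44cb_nt.SquareDenominators
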